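import Mathlib
import Pool.Agent.H92.CK.Targets

/-!
# Module PUN of the board `ck_modules`: the complement of the edge is locally connected
-/

open MeasureTheory Set Filter Topology Metric
open scoped ENNReal NNReal ContDiff RealInnerProductSpace

namespace Pool.Agent.H94.CK

open Pool.Agent.H92.CK Pool.Agent.H94.IC Pool.Agent.H94.AC

/-- translation of a chart -/
theorem shift_chart (Ψ : OpenPartialHomeomorph E E) (c : E) (hsm : ContDiffOn ℝ ∞ Ψ Ψ.source)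
    (hsms : ContDiffOn ℝ ∞ Ψ.symm Ψ.target) :
    ∃ Ψ' : OpenPartialHomeomorph E E, Ψ'.source = Ψ.source ∧ (∀ z, Ψ' z = Ψ z - c) ∧
      ContDiffOn ℝ ∞ Ψ' Ψ'.source ∧ ContDiffOn ℝ ∞ Ψ'.symm Ψ'.target := by
  refine ⟨Ψ.transHomeomorph (Homeomorph.addRight (-c)), rfl, fun z => ?_, ?_, ?_⟩
  · show Ψ z + -c = Ψ z - c
    rw [sub_eq_add_neg]
  · have h1 : ContDiffOn ℝ ∞ (fun z => Ψ z + -c) Ψ.source := hsm.add contDiffOn_const
    exact h1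
  · have h2 : ContDiffOn ℝ ∞ (fun w : E => Ψ.symm (w + - -c)) {w | w + - -c ∈ Ψ.target} :=
      hsms.comp (contDiffOn_id.add contDiffOn_const) fun w hw => hw
    exact h2

/-- restriction of a chart -/
theorem restr_chart (Ψ : OpenPartialHomeomorph E E) (U : Set E) (hU : IsOpen U)
    (hsm : ContDiffOn ℝ ∞ Ψ Ψ.source) (hsms : ContDiffOn ℝ ∞ Ψ.symm Ψ.target) :
    ∃ Ψ' : OpenPartialHomeomorph E E, Ψ'.source = Ψ.source ∩ U ∧ (∀ z, Ψ' z = Ψ z) ∧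
      ContDiffOn ℝ ∞ Ψ' Ψ'.source ∧ ContDiffOn ℝ ∞ Ψ'.symm Ψ'.target := by
  refine ⟨Ψ.restrOpen U hU, Ψ.restrOpen_source U hU, fun z => rfl, ?_, ?_⟩
  · refine hsm.mono ?_
    rw [Ψ.restrOpen_source U hU]
    exact inter_subset_left
  · refine hsms.mono ?_
    intro w hw
    exact hw.1

theorem edge_iff (hDSJ : T_DSJ) {S : Set E} {Ψ : OpenPartialHomeomorph E E}
    (hsm : ContDiffOn ℝ ∞ Ψ Ψ.source) (hsms : ContDiffOn ℝ ∞ Ψ.symm Ψ.target)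
    (hfl : ∀ x ∈ Ψ.source, x ∈ S ↔ ((Ψ x) 2 = 0 ∧ (True → 0 ≤ (Ψ x) 0))) {y : E}
    (hy : y ∈ Ψ.source) : y ∈ edgePts S ↔ (Ψ y) 2 = 0 ∧ (Ψ y) 0 = 0 := by
  have hsub : ∀ z : E, ∀ k : Fin 3, (Ψ z - Ψ y) k = (Ψ z) k - (Ψ y) k := fun z k => rfl
  constructor
  · rintro ⟨hyS, hyc⟩
    obtain ⟨h2, h0⟩ := (hfl y hy).1 hyS
    refine ⟨h2, ?_⟩
    rcases (h0 trivial).lt_or_eq with h3 | h3
    · exfalso
      have hU : IsOpen (Ψ.source ∩ Ψ ⁻¹' {w : E | 0 < w 0}) :=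
        Ψ.continuousOn.isOpen_inter_preimage Ψ.open_source
          (isOpen_lt continuous_const (EuclideanSpace.proj (0 : Fin 3) : E →L[ℝ] ℝ).continuous)
      obtain ⟨Ψ1, hs1, hv1, hsm1, hsms1⟩ := restr_chart Ψ _ hU hsm hsms
      obtain ⟨Ψ2, hs2, hv2, hsm2, hsms2⟩ := shift_chart Ψ1 (Ψ y) hsm1 hsms1
      refine hDSJ S y ⟨⟨Ψ2, ?_, ?_, hsm2, hsms2, ?_⟩, hyc⟩
      · rw [hs2, hs1]
        exact ⟨hy, hy, h3⟩
      · rw [hv2, hv1, sub_self]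
      · intro z hz
        rw [hs2, hs1] at hz
        rw [hfl z hz.1, hv2, hv1, hsub, h2, sub_zero]
        have hz0 : 0 < (Ψ z) 0 := hz.2.2
        exact ⟨fun h => ⟨h.1, fun hf => hf.elim⟩, fun h => ⟨h.1, fun _ => hz0.le⟩⟩
    · exact h3.symm
  · rintro ⟨h2, h0⟩
    have hyS : y ∈ S := (hfl y hy).2 ⟨h2, fun _ => h0.ge⟩
    obtain ⟨Ψ2, hs2, hv2, hsm2, hsms2⟩ := shift_chart Ψ (Ψ y) hsm hsms
    refine ⟨hyS, Ψ2, by rw [hs2]; exact hy, by rw [hv2, sub_self], hsm2, hsms2, ?_⟩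
    intro z hz
    rw [hs2] at hz
    rw [hfl z hz, hv2, hsub, hsub, h2, h0, sub_zero, sub_zero]

theorem lin_coord (k : Fin 3) : IsLinearMap ℝ (fun y : E => y k) :=
  ((EuclideanSpace.proj k : E →L[ℝ] ℝ) : E →ₗ[ℝ] ℝ).isLinear

theorem ball_minus (a : ℝ) (ha : 0 < a) :
    IsPreconnected (ball (0 : E) a \ {y : E | y 2 = 0 ∧ y 0 = 0}) := by
  have hpt : ∀ s t : ℝ, |s| = 1 → |t| = 1 →
      (!₂[s * (a / 2), 0, t * (a / 2)] : E) ∈ ball (0 : E) a := by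
    intro s t hs ht
    rw [mem_ball_zero_iff]
    apply lt_of_pow_lt_pow_left₀ 2 ha.le
    rw [EuclideanSpace.norm_sq_eq, Fin.sum_univ_three]
    have hs2 : s ^ 2 = 1 := by rw [← sq_abs, hs, one_pow]
    have ht2 : t ^ 2 = 1 := by rw [← sq_abs, ht, one_pow]
    have e : ‖(!₂[s * (a / 2), 0, t * (a / 2)] : E) 0‖ ^ 2 +
        ‖(!₂[s * (a / 2), 0, t * (a / 2)] : E) 1‖ ^ 2 +
        ‖(!₂[s * (a / 2), 0, t * (a / 2)] : E) 2‖ ^ 2 =
        s ^ 2 * (a / 2) ^ 2 + t ^ 2 * (a / 2) ^ 2 := by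
      simp [mul_pow, abs_of_pos ha]
    rw [e, hs2, ht2]
    nlinarith
  have hA1 : IsPreconnected (ball (0 : E) a ∩ {y : E | 0 < y 0}) :=
    ((convex_ball 0 a).inter (convex_halfSpace_gt (lin_coord 0) 0)).isPreconnected
  have hA2 : IsPreconnected (ball (0 : E) a ∩ {y : E | 0 < y 2}) :=
    ((convex_ball 0 a).inter (convex_halfSpace_gt (lin_coord 2) 0)).isPreconnected
  have hA3 : IsPreconnected (ball (0 : E) a ∩ {y : E | y 0 < 0}) :=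
    ((convex_ball 0 a).inter (convex_halfSpace_lt (lin_coord 0) 0)).isPreconnected
  have hA4 : IsPreconnected (ball (0 : E) a ∩ {y : E | y 2 < 0}) :=
    ((convex_ball 0 a).inter (convex_halfSpace_lt (lin_coord 2) 0)).isPreconnected
  have h12 : IsPreconnected (ball (0 : E) a ∩ {y : E | 0 < y 0} ∪ ball (0 : E) a ∩ {y : E | 0 < y 2}) :=
    IsPreconnected.union (!₂[1 * (a / 2), 0, 1 * (a / 2)] : E)
    ⟨hpt 1 1 (by simp) (by simp), by simp; exact ha⟩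
    ⟨hpt 1 1 (by simp) (by simp), by simp; exact ha⟩ hA1 hA2
  have h34 : IsPreconnected (ball (0 : E) a ∩ {y : E | y 0 < 0} ∪ ball (0 : E) a ∩ {y : E | y 2 < 0}) :=
    IsPreconnected.union (!₂[(-1) * (a / 2), 0, (-1) * (a / 2)] : E)
    ⟨hpt (-1) (-1) (by simp) (by simp), by simp; exact ha⟩
    ⟨hpt (-1) (-1) (by simp) (by simp), by simp; exact ha⟩ hA3 hA4
  have hall : IsPreconnected ((ball (0 : E) a ∩ {y : E | 0 < y 0} ∪ ball (0 : E) a ∩ {y : E | 0 < y 2}) ∪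
      (ball (0 : E) a ∩ {y : E | y 0 < 0} ∪ ball (0 : E) a ∩ {y : E | y 2 < 0})) :=
    IsPreconnected.union (!₂[(-1) * (a / 2), 0, 1 * (a / 2)] : E)
    (Or.inr ⟨hpt (-1) 1 (by simp) (by simp), by simp; exact ha⟩)
    (Or.inl ⟨hpt (-1) 1 (by simp) (by simp), by simp; exact ha⟩) h12 h34
  have he : ball (0 : E) a \ {y : E | y 2 = 0 ∧ y 0 = 0} =
      (ball (0 : E) a ∩ {y : E | 0 < y 0} ∪ ball (0 : E) a ∩ {y : E | 0 < y 2}) ∪
      (ball (0 : E) a ∩ {y : E | y 0 < 0} ∪ ball (0 : E) a ∩ {y : E | y 2 < 0}) := by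
    ext y
    constructor
    · rintro ⟨h1, h2⟩
      by_cases h3 : y 2 = 0
      · have h4 : y 0 ≠ 0 := fun h => h2 ⟨h3, h⟩
        rcases lt_or_gt_of_ne h4 with h5 | h5
        · exact Or.inr (Or.inl ⟨h1, h5⟩)
        · exact Or.inl (Or.inl ⟨h1, h5⟩)
      · rcases lt_or_gt_of_ne h3 with h5 | h5
        · exact Or.inr (Or.inr ⟨h1, h5⟩)
        · exact Or.inl (Or.inr ⟨h1, h5⟩)
    · rintro ((⟨h1, h2⟩ | ⟨h1, h2⟩) | (⟨h1, h2⟩ | ⟨h1, h2⟩))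
      · exact ⟨h1, fun h => (ne_of_gt h2) h.2⟩
      · exact ⟨h1, fun h => (ne_of_gt h2) h.1⟩
      · exact ⟨h1, fun h => (ne_of_lt h2) h.2⟩
      · exact ⟨h1, fun h => (ne_of_lt h2) h.1⟩
  rw [he]
  exact hall

theorem pf_PUN (hDSJ : T_DSJ) : T_PUN := by
  intro S x hx N hN
  obtain ⟨Ψ, hxs, hx0, hsm, hsms, hfl⟩ := hx
  have h0t : (0 : E) ∈ Ψ.target := hx0 ▸ Ψ.map_source hxs
  have hs0 : Ψ.symm 0 = x := by rw [← hx0, Ψ.left_inv hxs]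
  have hcont : ContinuousAt Ψ.symm 0 := Ψ.symm.continuousAt h0t
  have h1 : Ψ.symm ⁻¹' N ∈ 𝓝 (0 : E) := hcont (by rw [hs0]; exact hN)
  have h2 : Ψ.target ∈ 𝓝 (0 : E) := Ψ.open_target.mem_nhds h0t
  obtain ⟨a, ha, hab⟩ := Metric.mem_nhds_iff.1 (inter_mem h1 h2)
  have hbt : ball (0 : E) a ⊆ Ψ.target := fun w hw => (hab hw).2
  refine ⟨Ψ.symm '' ball 0 a, Ψ.symm.isOpen_image_of_subset_source isOpen_ball hbt,
    ⟨0, mem_ball_self ha, hs0⟩, ?_, ?_⟩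
  · rintro _ ⟨w, hw, rfl⟩
    exact (hab hw).1
  · have he : Ψ.symm '' ball 0 a \ edgePts S =
        Ψ.symm '' (ball (0 : E) a \ {y : E | y 2 = 0 ∧ y 0 = 0}) := by
      ext z
      constructor
      · rintro ⟨⟨w, hw, rfl⟩, h3⟩
        refine ⟨w, ⟨hw, fun h4 => h3 ?_⟩, rfl⟩
        rw [edge_iff hDSJ hsm hsms hfl (Ψ.map_target (hbt hw)), Ψ.right_inv (hbt hw)]
        exact h4
      · rintro ⟨w, ⟨hw, h4⟩, rfl⟩
        refine ⟨⟨w, hw, rfl⟩, fun h3 => h4 ?_⟩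
        rw [edge_iff hDSJ hsm hsms hfl (Ψ.map_target (hbt hw)), Ψ.right_inv (hbt hw)] at h3
        exact h3
    rw [he]
    exact (ball_minus a ha).image _ (Ψ.symm.continuousOn.mono fun w hw => hbt hw.1)

end Pool.Agent.H94.CK
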