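import Mathlib
import Pool.Agent.H92.CK.Targets
import Pool.Agent.H32.IC.FCE

/-!
# Module TSC of the board `ck_modules`: continuity up to the crack from both sides
-/

open MeasureTheory Set Filter Topology Metric
open scoped ENNReal NNReal ContDiff RealInnerProductSpace

namespace Pool.Agent.H94.CK

open Pool.Agent.H92.CK Pool.Agent.H94.IC Pool.Agent.H94.AC
open Pool.Agent.H32.IC.FCE Pool.Agent.H32.IC

theorem pf_TSC (hH2W : T_H2W) (hMOR : T_MOR) : T_TSC := by
  intro Ω S h Ψ p hΩ hΩb hSc hW hp hp2 hsub hsm hsms hfl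
  set y0 : E := Ψ p with hy0
  set Φ : OpenPartialHomeomorph E E := Ψ.symm with hΦ
  have hy0t : y0 ∈ Ψ.target := Ψ.map_source hp
  obtain ⟨ε, hε, hεb⟩ := Metric.isOpen_iff.1 Ψ.open_target y0 hy0t
  set r0 : ℝ := ε / 8 with hr0
  have hr0p : 0 < r0 := by positivity
  have hcb : closedBall y0 (4 * r0) ⊆ Ψ.target := by
    intro y hy
    refine hεb ?_
    rw [mem_closedBall] at hy
    rw [mem_ball]
    rw [hr0] at hy
    linarith
  have hO : IsOpen (Ω \ S) := hΩ.sdiff hSc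
  -- the charts
  have hch : ∀ b : Bool, Ch Ω S (PS Φ b y0) r0 := by
    intro b
    have hmem : ∀ y : E, y ∈ closedBall (0 : E) (4 * r0) → eT b y + y0 ∈ closedBall y0 (4 * r0) := by
      intro y hy
      rw [mem_closedBall_zero_iff] at hy
      rw [mem_closedBall, dist_eq_norm]
      simpa using hy
    have ha : ContDiff ℝ ∞ (fun y => eT b y + y0) := (eT b).contDiff.add contDiff_const
    have hb : ContDiff ℝ ∞ (fun y => (eT b).symm (y - y0)) :=
      (eT b).symm.contDiff.comp (contDiff_id.sub contDiff_const)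
    refine ⟨hr0p, fun y hy => hcb (hmem y hy), hsub, ?_, ?_, ?_⟩
    · exact hsms.comp ha.contDiffOn (fun y hy => hy)
    · have h1 : ContDiffOn ℝ ∞ (fun z => (eT b).symm (Ψ z - y0)) Ψ.source :=
        hb.comp_contDiffOn hsm
      exact h1.congr (fun z _ => PS_symm Φ b y0 z)
    · intro y hy
      have hy' := hmem y (ball_subset_closedBall hy)
      have e1 : (eT b y + y0) 2 = sg b * y 2 := by
        have : (eT b y + y0) 2 = (eT b y) 2 + y0 2 := rfl
        rw [this, eT_two, hp2, add_zero]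
      have hs : sg b ≠ 0 := by unfold sg; cases b <;> simp
      have h1 : eT b y + y0 ∈ Ψ.target := hcb hy'
      rw [PS_apply, hfl _ (Ψ.map_target h1)]
      rw [Ψ.right_inv h1, e1]
      exact ⟨fun h2 => (mul_eq_zero.1 h2).resolve_left hs, fun h2 => by rw [h2, mul_zero]⟩
  have hmono : HB (3 * r0 / 4) ⊆ HB r0 := by
    intro y hy
    exact ⟨lt_of_lt_of_le hy.1 (by linarith), hy.2⟩
  have hC : ∀ b : Bool, ∃ C : ℝ, ∀ x ∈ HB (3 * r0 / 4 / 8), ∀ y ∈ HB (3 * r0 / 4 / 8),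
      |h (PS Φ b y0 x) - h (PS Φ b y0 y)| ≤ C * Real.sqrt ‖x - y‖ := by
    intro b
    have hs := halfSol hΩ hO (hch b) hW
    exact hMOR (3 * r0 / 4) (fun y => h (PS Φ b y0 y)) (by positivity) (hs.smw.mono hmono)
      (hs.g2.mono_measure (Measure.restrict_mono hmono le_rfl)) (fun k l => hH2W _ _ _ hs k l)
  choose C hC using hC
  -- the radius
  have hcont : ContinuousAt Ψ p := Ψ.continuousAt hp
  have hcd : ContDiffAt ℝ 1 Ψ p :=
    (hsm.contDiffAt (Ψ.open_source.mem_nhds hp)).of_le (by norm_cast)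
  obtain ⟨K, t, ht, hK⟩ := hcd.exists_lipschitzOnWith
  obtain ⟨r1, hr1, hr1b⟩ := Metric.isOpen_iff.1 Ψ.open_source p hp
  obtain ⟨r2, hr2, hr2b⟩ := Metric.continuousAt_iff.1 hcont (3 * r0 / 4 / 8) (by positivity)
  obtain ⟨r3, hr3, hr3b⟩ := Metric.mem_nhds_iff.1 ht
  set r : ℝ := min (min r1 r2) r3 / 2 with hr
  have hmin : 0 < min (min r1 r2) r3 := lt_min (lt_min hr1 hr2) hr3
  have hrp : 0 < r := by positivity
  have hrr1 : r < r1 := by
    have h1 := min_le_left (min r1 r2) r3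
    have h2 := min_le_left r1 r2
    linarith
  have hrr2 : r < r2 := by
    have h1 := min_le_left (min r1 r2) r3
    have h2 := min_le_right r1 r2
    linarith
  have hrr3 : r < r3 := by
    have h1 := min_le_right (min r1 r2) r3
    linarith
  have hcs : closedBall p r ⊆ Ψ.source := (closedBall_subset_ball hrr1).trans hr1b
  refine ⟨r, hrp, hcs, (|C false| + |C true|) * Real.sqrt K, ?_⟩
  intro x hx y hy hxy
  have hxs : x ∈ Ψ.source := hcs (ball_subset_closedBall hx)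
  have hys : y ∈ Ψ.source := hcs (ball_subset_closedBall hy)
  have hx2 : ‖Ψ x - y0‖ < 3 * r0 / 4 / 8 := by
    rw [← dist_eq_norm]
    exact hr2b (lt_trans (mem_ball.1 hx) hrr2)
  have hy2 : ‖Ψ y - y0‖ < 3 * r0 / 4 / 8 := by
    rw [← dist_eq_norm]
    exact hr2b (lt_trans (mem_ball.1 hy) hrr2)
  have hlip : ‖Ψ x - Ψ y‖ ≤ K * dist x y := by
    rw [← dist_eq_norm]
    exact hK.dist_le_mul x (hr3b (lt_trans (mem_ball.1 hx) hrr3)) y
      (hr3b (lt_trans (mem_ball.1 hy) hrr3))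
  obtain ⟨b, hbx, hby⟩ : ∃ b : Bool, 0 < sg b * (Ψ x) 2 ∧ 0 < sg b * (Ψ y) 2 := by
    rcases pos_and_pos_or_neg_and_neg_of_mul_pos hxy with ⟨h1, h2⟩ | ⟨h1, h2⟩
    · exact ⟨false, by simpa [sg] using h1, by simpa [sg] using h2⟩
    · exact ⟨true, by simpa [sg] using h1, by simpa [sg] using h2⟩
  have hmem : ∀ z : E, ‖Ψ z - y0‖ < 3 * r0 / 4 / 8 → 0 < sg b * (Ψ z) 2 →
      (eT b).symm (Ψ z - y0) ∈ HB (3 * r0 / 4 / 8) := by
    intro z h1 h2
    refine ⟨?_, ?_⟩
    · rw [(eT b).symm.norm_map]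
      exact h1
    · rw [eTs_two]
      have : (Ψ z - y0) 2 = (Ψ z) 2 - y0 2 := rfl
      rw [this, hp2, sub_zero]
      exact h2
  have hval : ∀ z ∈ Ψ.source, PS Φ b y0 ((eT b).symm (Ψ z - y0)) = z := by
    intro z hz
    rw [PS_apply, (eT b).apply_symm_apply, sub_add_cancel]
    exact Ψ.left_inv hz
  have h1 := hC b _ (hmem x hx2 hbx) _ (hmem y hy2 hby)
  rw [hval x hxs, hval y hys, ← map_sub, (eT b).symm.norm_map, sub_sub_sub_cancel_right] at h1
  have h2 : C b ≤ |C false| + |C true| := by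
    have h3 := abs_nonneg (C false)
    have h4 := abs_nonneg (C true)
    have h5 := le_abs_self (C false)
    have h6 := le_abs_self (C true)
    cases b <;> linarith
  have h3 : Real.sqrt ‖Ψ x - Ψ y‖ ≤ Real.sqrt K * Real.sqrt (dist x y) := by
    rw [← Real.sqrt_mul K.coe_nonneg]
    exact Real.sqrt_le_sqrt hlip
  have h4 : 0 ≤ |C false| + |C true| := by positivity
  calc |h x - h y| ≤ C b * Real.sqrt ‖Ψ x - Ψ y‖ := h1
    _ ≤ (|C false| + |C true|) * Real.sqrt ‖Ψ x - Ψ y‖ :=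
        mul_le_mul_of_nonneg_right h2 (Real.sqrt_nonneg _)
    _ ≤ (|C false| + |C true|) * (Real.sqrt K * Real.sqrt (dist x y)) :=
        mul_le_mul_of_nonneg_left h3 h4
    _ = _ := by ring

end Pool.Agent.H94.CK
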